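import Pool.Agent.X91.Rom

/-!
MP_e4dd62_an, Q1: `β₀ > α₀`.  The supremum `β₀` of the exponents `α` for which `1 - |ξ|^α` on
`[-1,1]` extends to a positive definite function on the line is strictly larger than Romanov's
number `α₀`.
-/

set_option autoImplicit false

open MeasureTheory Set Real

namespace Pool.Agent.Results.MP_e4dd62_an.BetaGreater

open Pool.Agent.X91.Rom

/-- `1 - |ξ|^α` on `[-1,1]` is the restriction of the Fourier transform of a finite nonnegative
Borel measure on the line. -/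
def PosDefOn (α : ℝ) : Prop :=
  ∃ μ : Measure ℝ, IsFiniteMeasure μ ∧ ∀ ξ : ℝ, |ξ| ≤ 1 →
    ∫ x : ℝ, Complex.exp (Complex.I * ξ * x) ∂μ = ((1 - |ξ| ^ α : ℝ) : ℂ)

/-- The supremum of the admissible exponents. -/
noncomputable def beta0 : ℝ := sSup {α : ℝ | 0 < α ∧ PosDefOn α}

/-- Romanov's function. -/
noncomputable def rho (α : ℝ) : ℝ := ∫ t in (0 : ℝ)..(3 * π / 2), cos t / t ^ (2 - α)

/-- Cosine coefficients of the correction term. -/
noncomputable def S (ω : ℝ) : ℝ := ∫ u in (0 : ℝ)..1, (1 + cos (3 * π * u)) * cos (ω * u)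

theorem int_cos_mul (a : ℝ) (ha : a ≠ 0) : ∫ u in (0 : ℝ)..1, cos (a * u) = sin a / a := by
  rw [intervalIntegral.integral_comp_mul_left _ ha, mul_zero, mul_one, integral_cos, sin_zero,
    sub_zero, smul_eq_mul]
  ring

theorem S_split (ω : ℝ) : S ω = (∫ u in (0 : ℝ)..1, cos (ω * u)) +
    ((∫ u in (0 : ℝ)..1, cos ((3 * π + ω) * u)) + ∫ u in (0 : ℝ)..1, cos ((3 * π - ω) * u)) / 2 := by
  have hi : ∀ a : ℝ, IntervalIntegrable (fun u : ℝ => cos (a * u)) volume 0 1 := fun a =>
    (by fun_prop : Continuous fun u : ℝ => cos (a * u)).intervalIntegrable _ _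
  unfold S
  rw [← intervalIntegral.integral_add (hi _) (hi _), div_eq_mul_inv, mul_comm _ (2 : ℝ)⁻¹,
    ← intervalIntegral.integral_const_mul,
    ← intervalIntegral.integral_add (hi _) (((hi _).add (hi _)).const_mul _)]
  refine intervalIntegral.integral_congr fun u _ => ?_
  have e1 : (3 * π + ω) * u = 3 * π * u + ω * u := by ring
  have e2 : (3 * π - ω) * u = 3 * π * u - ω * u := by ring
  rw [e1, e2, cos_add, cos_sub]
  ring

theorem S_eq (ω : ℝ) (h0 : ω ≠ 0) (h1 : 3 * π + ω ≠ 0) (h2 : 3 * π - ω ≠ 0) :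
    S ω = sin ω * (9 * π ^ 2) / (ω * ((3 * π + ω) * (3 * π - ω))) := by
  have e3 : sin (3 * π) = 0 := by
    have := sin_nat_mul_pi 3
    push_cast at this
    exact this
  have e4 : cos (3 * π) = -1 := by
    have := cos_nat_mul_pi 3
    push_cast at this
    rw [this]
    norm_num
  rw [S_split, int_cos_mul _ h0, int_cos_mul _ h1, int_cos_mul _ h2, sin_add, sin_sub, e3, e4]
  field_simp
  ring

theorem S_even (n : ℤ) (hn : Even n) : 0 ≤ S (n * π / 2) ∧ (n ≠ 0 → n ≠ 6 → n ≠ -6 → S (n * π / 2) = 0) := by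
  obtain ⟨m, hm⟩ := hn
  have hpi := pi_pos
  have e : (n : ℝ) * π / 2 = m * π := by
    rw [hm]
    push_cast
    ring
  have e3 : sin (3 * π) = 0 := by
    have := sin_nat_mul_pi 3
    push_cast at this
    exact this
  have hz : n ≠ 0 → n ≠ 6 → n ≠ -6 → S (n * π / 2) = 0 := by
    intro h0 h6 h6'
    rw [e, S_eq, sin_int_mul_pi, zero_mul, zero_div]
    · have : (m : ℝ) ≠ 0 := by exact_mod_cast (by omega : m ≠ 0)
      positivity
    · have : (3 + m : ℝ) ≠ 0 := by exact_mod_cast (by omega : 3 + m ≠ 0)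
      have e : 3 * π + m * π = (3 + m) * π := by ring
      rw [e]
      positivity
    · have : (3 - m : ℝ) ≠ 0 := by exact_mod_cast (by omega : 3 - m ≠ 0)
      have e : 3 * π - m * π = (3 - m) * π := by ring
      rw [e]
      positivity
  refine ⟨?_, hz⟩
  by_cases h0 : n = 0
  · rw [h0]
    unfold S
    refine intervalIntegral.integral_nonneg zero_le_one fun u _ => ?_
    push_cast
    rw [zero_mul, zero_div, zero_mul, cos_zero, mul_one]
    linarith [neg_one_le_cos (3 * π * u)]
  by_cases h6 : n = 6 ∨ n = -6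
  · have hS : S (n * π / 2) = ∫ u in (0 : ℝ)..1, (1 + cos (3 * π * u)) * cos (3 * π * u) := by
      unfold S
      refine intervalIntegral.integral_congr fun u _ => ?_
      rcases h6 with h | h
      · rw [h]
        push_cast
        congr 2
        ring
      · rw [h]
        push_cast
        have : (-6 * π / 2) * u = -(3 * π * u) := by ring
        rw [this, cos_neg]
    rw [hS]
    have e5 : ∫ u in (0 : ℝ)..1, (1 + cos (3 * π * u)) * cos (3 * π * u) =
        (∫ u in (0 : ℝ)..1, cos (3 * π * u)) + ∫ u in (0 : ℝ)..1, cos (3 * π * u) ^ 2 := by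
      rw [← intervalIntegral.integral_add
        ((by fun_prop : Continuous fun u : ℝ => cos (3 * π * u)).intervalIntegrable _ _)
        ((by fun_prop : Continuous fun u : ℝ => cos (3 * π * u) ^ 2).intervalIntegrable _ _)]
      refine intervalIntegral.integral_congr fun u _ => ?_
      ring
    rw [e5, int_cos_mul _ (by positivity), e3, zero_div, zero_add]
    exact intervalIntegral.integral_nonneg zero_le_one fun u _ => sq_nonneg _
  · rw [hz h0 (fun h => h6 (Or.inl h)) (fun h => h6 (Or.inr h))]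

theorem S_odd (n : ℕ) (hn : Odd n) : |S (n * π / 2)| ≤ 96 / n ^ 3 := by
  have hpi := pi_pos
  have hpi3 := pi_gt_three
  have hn0 : (0 : ℝ) < n := by
    obtain ⟨m, hm⟩ := hn
    exact_mod_cast (by omega : 0 < n)
  have h6 : (n : ℝ) ≠ 6 := by
    obtain ⟨m, hm⟩ := hn
    exact_mod_cast (by omega : n ≠ 6)
  have h1 : 3 * π + n * π / 2 ≠ 0 := by positivity
  have h2 : 3 * π - n * π / 2 ≠ 0 := by
    have : 3 * π - n * π / 2 = (6 - n) * (π / 2) := by ring
    rw [this]
    exact mul_ne_zero (sub_ne_zero.mpr h6.symm) (by positivity)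
  rw [S_eq _ (by positivity) h1 h2]
  have e1 : n * π / 2 * ((3 * π + n * π / 2) * (3 * π - n * π / 2)) =
      π ^ 3 / 8 * (n * (36 - n ^ 2)) := by ring
  have hlow : (n : ℝ) ^ 2 / 4 ≤ |36 - (n : ℝ) ^ 2| := by
    by_cases h7 : n < 6
    · have : (n : ℝ) ≤ 5 := by exact_mod_cast (by omega : n ≤ 5)
      rw [le_abs]
      left
      nlinarith
    · have : (7 : ℝ) ≤ n := by
        obtain ⟨m, hm⟩ := hn
        exact_mod_cast (by omega : 7 ≤ n)
      rw [le_abs]
      right
      nlinarith
  have hA : 0 < |36 - (n : ℝ) ^ 2| := lt_of_lt_of_le (by positivity) hlow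
  rw [e1, abs_div, abs_mul _ (9 * π ^ 2), abs_mul (π ^ 3 / 8), abs_mul (n : ℝ) _,
    abs_of_pos (show 0 < 9 * π ^ 2 by positivity),
    abs_of_pos (show 0 < π ^ 3 / 8 by positivity), abs_of_pos hn0, div_le_div_iff₀ (by positivity)
    (by positivity)]
  have hs := abs_sin_le_one (n * π / 2)
  have h3 : |sin (n * π / 2)| * (9 * π ^ 2) * n ^ 3 ≤ 9 * π ^ 2 * n ^ 3 := by
    have : 0 < 9 * π ^ 2 * (n : ℝ) ^ 3 := by positivity
    nlinarith
  refine h3.trans ?_
  have h4 : 96 * (π ^ 3 / 8 * (n * (n ^ 2 / 4))) ≤ 96 * (π ^ 3 / 8 * (n * |36 - (n : ℝ) ^ 2|)) := by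
    gcongr
  refine le_trans ?_ h4
  have e2 : 96 * (π ^ 3 / 8 * (n * (n ^ 2 / 4))) = 3 * π ^ 3 * (n : ℝ) ^ 3 := by ring
  rw [e2]
  have h5 : 9 * π ^ 2 ≤ 3 * π ^ 3 := by nlinarith [sq_nonneg π]
  have : 0 < (n : ℝ) ^ 3 := by positivity
  nlinarith

theorem S_three : S (3 * π / 2) = - (8 / (9 * π)) := by
  have hpi := pi_pos
  have e : sin (3 * π / 2) = -1 := by
    have : 3 * π / 2 = π / 2 + π := by ring
    rw [this, sin_add_pi, sin_pi_div_two]
  rw [S_eq _ (by positivity) (by positivity) (by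
    have : 3 * π - 3 * π / 2 = 3 * π / 2 := by ring
    rw [this]; positivity), e]
  field_simp
  ring

/-- The extension on `[0,2]`. -/
noncomputable def Gf (α ε r : ℝ) : ℝ :=
  if r ≤ 1 then 1 - r ^ α else (2 - r) ^ α - 1 + ε * (1 + cos (3 * π * (2 - r)))

/-- The Fourier coefficients. -/
noncomputable def w (α ε : ℝ) (n : ℤ) : ℝ :=
  (∫ x in (0 : ℝ)..2, cos (n * π / 2 * x) * Gf α ε x) / 2

theorem continuous_Gf {α : ℝ} (hα : 0 < α) (ε : ℝ) : Continuous (Gf α ε) := by
  unfold Gf
  refine Continuous.if_le ?_ ?_ continuous_id continuous_const ?_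
  · exact continuous_const.sub (continuous_rpow_const hα.le)
  · exact (((continuous_rpow_const hα.le).comp (continuous_const.sub continuous_id)).sub
      continuous_const).add (by fun_prop)
  · intro x hx
    have hx' : x = 1 := hx
    have e4 : cos (3 * π) = -1 := by
      have := cos_nat_mul_pi 3
      push_cast at this
      rw [this]
      norm_num
    rw [hx']
    norm_num
    right
    rw [e4]
    norm_num

theorem w_eq {α : ℝ} (hα : 0 < α) (ε : ℝ) (n : ℤ) :
    w α ε n = ((1 - (-1) ^ n) * c α (n * π / 2) + (-1) ^ n * (ε * S (n * π / 2))) / 2 := by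
  have hcont := continuous_Gf hα ε
  have hi : ∀ a b, IntervalIntegrable (fun x => cos (n * π / 2 * x) * Gf α ε x) volume a b :=
    fun a b => ((by fun_prop : Continuous fun x : ℝ => cos (n * π / 2 * x)).mul
      hcont).intervalIntegrable a b
  unfold w
  congr 1
  rw [← intervalIntegral.integral_add_adjacent_intervals (hi 0 1) (hi 1 2)]
  have h1 : ∫ x in (0 : ℝ)..1, cos (n * π / 2 * x) * Gf α ε x = c α (n * π / 2) := by
    unfold c
    refine intervalIntegral.integral_congr fun x hx => ?_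
    rw [uIcc_of_le zero_le_one] at hx
    unfold Gf
    rw [if_pos hx.2]
    ring
  have h2 : ∫ x in (1 : ℝ)..2, cos (n * π / 2 * x) * Gf α ε x =
      ∫ u in (0 : ℝ)..1, cos (n * π / 2 * (2 - u)) * Gf α ε (2 - u) := by
    rw [intervalIntegral.integral_comp_sub_left (fun x => cos (n * π / 2 * x) * Gf α ε x) 2]
    norm_num
  have h3 : ∫ u in (0 : ℝ)..1, cos (n * π / 2 * (2 - u)) * Gf α ε (2 - u) =
      ∫ u in (0 : ℝ)..1, (- ((-1) ^ n * ((1 - u ^ α) * cos (n * π / 2 * u))) +
        ((-1) ^ n * ε) * ((1 + cos (3 * π * u)) * cos (n * π / 2 * u))) := by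
    refine intervalIntegral.integral_congr fun u hu => ?_
    rw [uIcc_of_le zero_le_one] at hu
    have e1 : (n : ℝ) * π / 2 * (2 - u) = n * π - n * π / 2 * u := by ring
    have e2 : cos (n * π / 2 * (2 - u)) = (-1) ^ n * cos (n * π / 2 * u) := by
      rw [e1, cos_sub, cos_int_mul_pi, sin_int_mul_pi]
      ring
    have e3 : Gf α ε (2 - u) = u ^ α - 1 + ε * (1 + cos (3 * π * u)) := by
      unfold Gf
      by_cases h : 2 - u ≤ 1
      · have hu1 : u = 1 := by linarith [hu.2]
        have e4 : cos (3 * π) = -1 := by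
          have := cos_nat_mul_pi 3
          push_cast at this
          rw [this]
          norm_num
        rw [if_pos h, hu1]
        norm_num
        right
        rw [e4]
        norm_num
      · rw [if_neg h, show 2 - (2 - u) = u by ring]
    rw [e2, e3]
    ring
  have i1 : IntervalIntegrable (fun u : ℝ => (1 - u ^ α) * cos (n * π / 2 * u)) volume 0 1 :=
    ((continuous_const.sub (continuous_rpow_const hα.le)).mul (by fun_prop)).intervalIntegrable _ _
  have i2 : IntervalIntegrable (fun u : ℝ => (1 + cos (3 * π * u)) * cos (n * π / 2 * u))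
      volume 0 1 := (by fun_prop : Continuous fun u : ℝ => (1 + cos (3 * π * u)) *
        cos (n * π / 2 * u)).intervalIntegrable _ _
  have i3 : IntervalIntegrable (fun u : ℝ => -((-1) ^ n * ((1 - u ^ α) * cos (n * π / 2 * u))))
      volume 0 1 := (i1.const_mul _).neg
  rw [h1, h2, h3, intervalIntegral.integral_add i3 (i2.const_mul _),
    intervalIntegral.integral_neg, intervalIntegral.integral_const_mul,
    intervalIntegral.integral_const_mul]
  unfold c S
  ring

theorem w_even {α : ℝ} (hα : 0 < α) (ε : ℝ) (n : ℤ) (hn : Even n) :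
    w α ε n = ε / 2 * S (n * π / 2) := by
  rw [w_eq hα, hn.neg_one_zpow]
  ring

theorem w_odd {α : ℝ} (hα : 0 < α) (ε : ℝ) (n : ℤ) (hn : Odd n) :
    w α ε n = c α (n * π / 2) - ε / 2 * S (n * π / 2) := by
  rw [w_eq hα, hn.neg_one_zpow]
  ring

theorem w_neg (α ε : ℝ) (n : ℤ) : w α ε (-n) = w α ε n := by
  unfold w
  congr 1
  refine intervalIntegral.integral_congr fun x _ => ?_
  push_cast
  rw [show -(n : ℝ) * π / 2 * x = -(n * π / 2 * x) by ring, cos_neg]

/-- The extension. -/
noncomputable def F (α ε x : ℝ) : ℂ := ((Gf α ε |x| : ℝ) : ℂ)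

instance : Fact ((0 : ℝ) < 4) := ⟨by norm_num⟩

theorem coeff {α : ℝ} (hα : 0 < α) (ε : ℝ) (n : ℤ) :
    fourierCoeff (AddCircle.liftIco 4 (-2) (F α ε)) n = ((w α ε n : ℝ) : ℂ) := by
  have hcont := continuous_Gf hα ε
  have hFc : Continuous (F α ε) := Complex.continuous_ofReal.comp (hcont.comp continuous_abs)
  rw [fourierCoeff_liftIco_eq, fourierCoeffOn_eq_integral]
  have e1 : ∀ x : ℝ, fourier (-n) (x : AddCircle ((-2 : ℝ) + 4 - -2)) • F α ε x =
      Complex.exp (-(((n * π / 2 * x : ℝ) : ℂ) * Complex.I)) * F α ε x := by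
    intro x
    rw [fourier_coe_apply, smul_eq_mul]
    congr 2
    push_cast
    ring
  simp_rw [e1]
  have hi : ∀ a b, IntervalIntegrable (fun x : ℝ =>
      Complex.exp (-(((n * π / 2 * x : ℝ) : ℂ) * Complex.I)) * F α ε x) volume a b := fun a b =>
    ((by fun_prop : Continuous fun x : ℝ => Complex.exp (-(((n * π / 2 * x : ℝ) : ℂ) *
      Complex.I))).mul hFc).intervalIntegrable a b
  rw [show (-2 : ℝ) + 4 = 2 by norm_num, ← intervalIntegral.integral_add_adjacent_intervals
    (hi (-2) 0) (hi 0 2)]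
  have h1 : ∫ x in (-2 : ℝ)..0, Complex.exp (-(((n * π / 2 * x : ℝ) : ℂ) * Complex.I)) * F α ε x =
      ∫ x in (0 : ℝ)..2, Complex.exp (-(((n * π / 2 * (-x) : ℝ) : ℂ) * Complex.I)) * F α ε (-x) := by
    rw [intervalIntegral.integral_comp_neg (fun x : ℝ =>
      Complex.exp (-(((n * π / 2 * x : ℝ) : ℂ) * Complex.I)) * F α ε x)]
    norm_num
  have i2 : IntervalIntegrable (fun x : ℝ =>
      Complex.exp (-(((n * π / 2 * (-x) : ℝ) : ℂ) * Complex.I)) * F α ε (-x)) volume 0 2 :=
    ((by fun_prop : Continuous fun x : ℝ => Complex.exp (-(((n * π / 2 * (-x) : ℝ) : ℂ) *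
      Complex.I))).mul (hFc.comp continuous_neg)).intervalIntegrable _ _
  rw [h1, ← intervalIntegral.integral_add i2 (hi 0 2)]
  have h2 : ∫ x in (0 : ℝ)..2, (Complex.exp (-(((n * π / 2 * (-x) : ℝ) : ℂ) * Complex.I)) *
      F α ε (-x) + Complex.exp (-(((n * π / 2 * x : ℝ) : ℂ) * Complex.I)) * F α ε x) =
      ∫ x in (0 : ℝ)..2, ((2 * (cos (n * π / 2 * x) * Gf α ε x) : ℝ) : ℂ) := by
    refine intervalIntegral.integral_congr fun x hx => ?_
    rw [uIcc_of_le zero_le_two] at hx
    unfold F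
    rw [abs_neg, abs_of_nonneg hx.1, ← add_mul]
    have e : Complex.exp (-(((n * π / 2 * (-x) : ℝ) : ℂ) * Complex.I)) +
        Complex.exp (-(((n * π / 2 * x : ℝ) : ℂ) * Complex.I)) =
        ((2 * cos (n * π / 2 * x) : ℝ) : ℂ) := by
      push_cast
      rw [Complex.two_cos]
      congr 2
      · ring
      · ring
    rw [e]
    push_cast
    ring
  rw [h2, intervalIntegral.integral_ofReal, intervalIntegral.integral_const_mul]
  unfold w
  rw [Complex.real_smul]
  push_cast
  ring

theorem summable_w {α : ℝ} (hα : 1 < α) (hα2 : α ≤ 2) (ε : ℝ) (hε : 0 ≤ ε) :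
    Summable (w α ε) := by
  have hpi3 := pi_gt_three
  have hs : Summable (fun n : ℤ => (2 + 48 * ε) * (1 / (n : ℝ) ^ 2)) :=
    (Real.summable_one_div_int_pow.mpr (by norm_num)).mul_left _
  refine Summable.of_norm_bounded_eventually hs ?_
  have hnat : ∀ n : ℕ, Odd n → |w α ε n| ≤ (2 + 48 * ε) * (1 / (n : ℝ) ^ 2) := by
    intro n hn
    have hn0 : (0 : ℝ) < n := by
      obtain ⟨m, hm⟩ := hn
      exact_mod_cast (by omega : 0 < n)
    have hn1 : (1 : ℝ) ≤ n := by
      obtain ⟨m, hm⟩ := hn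
      exact_mod_cast (by omega : 1 ≤ n)
    have hcos : cos (n * π / 2) = 0 := by
      rw [cos_eq_zero_iff]
      obtain ⟨m, hm⟩ := hn
      refine ⟨m, ?_⟩
      rw [hm]
      push_cast
      ring
    rw [w_odd (by linarith) ε n (by exact_mod_cast hn)]
    have h1 := abs_c_le hα (show 0 < n * π / 2 by positivity) hcos
    have h2 := S_odd n hn
    push_cast
    have h3 : |c α (n * π / 2) - ε / 2 * S (n * π / 2)| ≤
        |c α (n * π / 2)| + ε / 2 * |S (n * π / 2)| := by
      refine (abs_sub _ _).trans ?_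
      rw [abs_mul, abs_of_nonneg (show 0 ≤ ε / 2 by positivity)]
    refine h3.trans ?_
    have h4 : α / (n * π / 2) ^ 2 ≤ 2 * (1 / (n : ℝ) ^ 2) := by
      rw [mul_one_div, div_le_div_iff₀ (by positivity) (by positivity)]
      have : (n * π / 2) ^ 2 = n ^ 2 * (π ^ 2 / 4) := by ring
      rw [this]
      have h5 : 1 ≤ π ^ 2 / 4 := by nlinarith
      have h6 : 0 < (n : ℝ) ^ 2 := by positivity
      calc α * (n : ℝ) ^ 2 ≤ 2 * (n : ℝ) ^ 2 := by nlinarith
        _ ≤ 2 * ((n : ℝ) ^ 2 * (π ^ 2 / 4)) := by nlinarith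
    have h5 : 96 / (n : ℝ) ^ 3 ≤ 96 * (1 / (n : ℝ) ^ 2) := by
      rw [mul_one_div]
      refine div_le_div_of_nonneg_left (by norm_num) (by positivity) ?_
      exact pow_le_pow_right₀ hn1 (by norm_num)
    have h6 : ε / 2 * |S (n * π / 2)| ≤ ε / 2 * (96 * (1 / (n : ℝ) ^ 2)) :=
      mul_le_mul_of_nonneg_left (h2.trans h5) (by positivity)
    linarith
  have hfin : ({0, 6, -6} : Set ℤ).Finite := Set.toFinite _
  filter_upwards [hfin.compl_mem_cofinite] with n hn
  simp only [mem_compl_iff, mem_insert_iff, mem_singleton_iff, not_or] at hn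
  rw [Real.norm_eq_abs]
  rcases Int.even_or_odd n with he | ho
  · rw [w_even (by linarith) ε n he, (S_even n he).2 hn.1 hn.2.1 hn.2.2, mul_zero, abs_zero]
    positivity
  · obtain ⟨m, rfl | rfl⟩ := n.eq_nat_or_neg
    · exact hnat m (by exact_mod_cast ho)
    · rw [w_neg]
      have : Odd m := by
        rw [odd_neg] at ho
        exact_mod_cast ho
      have h := hnat m this
      push_cast
      rw [neg_sq]
      exact h

theorem hasSum_F {α : ℝ} (hα : 1 < α) (hα2 : α ≤ 2) (ε : ℝ) (hε : 0 ≤ ε) (x : ℝ) (hx : |x| ≤ 1) :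
    HasSum (fun n : ℤ => ((w α ε n : ℝ) : ℂ) * Complex.exp (Complex.I * x * ((n * π / 2 : ℝ) : ℂ)))
      ((1 - |x| ^ α : ℝ) : ℂ) := by
  have hcont := continuous_Gf (show 0 < α by linarith) ε
  have hFc : Continuous (F α ε) := Complex.continuous_ofReal.comp (hcont.comp continuous_abs)
  let f : C(AddCircle (4 : ℝ), ℂ) := ⟨AddCircle.liftIco 4 (-2) (F α ε),
    AddCircle.liftIco_continuous (by
      unfold F
      rw [show (-2 : ℝ) + 4 = 2 by norm_num, abs_neg]) hFc.continuousOn⟩
  have hcoef : ∀ n, fourierCoeff f n = ((w α ε n : ℝ) : ℂ) := coeff (by linarith) ε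
  have hsum : Summable (fourierCoeff f) := by
    rw [show fourierCoeff f = fun n => ((w α ε n : ℝ) : ℂ) from funext hcoef]
    exact Complex.ofRealCLM.summable (summable_w hα hα2 ε hε)
  have h1 := has_pointwise_sum_fourier_series_of_summable hsum (x : AddCircle (4 : ℝ))
  have h2 : f (x : AddCircle (4 : ℝ)) = ((1 - |x| ^ α : ℝ) : ℂ) := by
    have hx2 := abs_le.mp hx
    have hm : x ∈ Ico (-2 : ℝ) (-2 + 4) := ⟨by linarith [hx2.1], by linarith [hx2.2]⟩
    have : AddCircle.liftIco 4 (-2) (F α ε) (x : AddCircle (4 : ℝ)) = F α ε x :=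
      AddCircle.liftIco_coe_apply hm
    change AddCircle.liftIco 4 (-2) (F α ε) (x : AddCircle (4 : ℝ)) = _
    rw [this]
    unfold F Gf
    rw [if_pos hx]
  rw [h2] at h1
  convert h1 using 2 with n
  rw [hcoef, fourier_coe_apply, smul_eq_mul]
  congr 2
  push_cast
  ring

/-- Nonnegative coefficients give a positive definite extension. -/
theorem posDefOn_of_nonneg {α : ℝ} (hα : 1 < α) (hα2 : α ≤ 2) (ε : ℝ) (hε : 0 ≤ ε)
    (hw : ∀ n, 0 ≤ w α ε n) : PosDefOn α := by
  have hsum := summable_w hα hα2 ε hε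
  let ν : ℤ → Measure ℝ := fun n => ENNReal.ofReal (w α ε n) • Measure.dirac ((n : ℝ) * π / 2)
  have hfin : IsFiniteMeasure (Measure.sum ν) := by
    refine ⟨?_⟩
    rw [Measure.sum_apply _ MeasurableSet.univ]
    have : ∀ n, ν n univ = ENNReal.ofReal (w α ε n) := by
      intro n
      simp [ν]
    simp_rw [this]
    exact hsum.tsum_ofReal_lt_top
  refine ⟨Measure.sum ν, hfin, fun x hx => ?_⟩
  have hint : Integrable (fun y : ℝ => Complex.exp (Complex.I * x * y)) (Measure.sum ν) := by
    refine Integrable.of_bound (C := 1) (by fun_prop) (Filter.Eventually.of_forall fun y => ?_)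
    have : Complex.I * x * y = ((x * y : ℝ) : ℂ) * Complex.I := by
      push_cast
      ring
    rw [this, Complex.norm_exp_ofReal_mul_I]
  have h1 := hasSum_integral_measure hint
  have h2 : ∀ n, ∫ y : ℝ, Complex.exp (Complex.I * x * y) ∂(ν n) =
      ((w α ε n : ℝ) : ℂ) * Complex.exp (Complex.I * x * ((n * π / 2 : ℝ) : ℂ)) := by
    intro n
    simp only [ν]
    rw [integral_smul_measure, integral_dirac, ENNReal.toReal_ofReal (hw n), Complex.real_smul]
  simp_rw [h2] at h1
  exact h1.unique (hasSum_F hα hα2 ε hε x hx)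

theorem w_nonneg {α : ℝ} (hα : 1 < α) (hα2 : α ≤ 2) (ε : ℝ) (hε : 0 ≤ ε)
    (h1 : 48 * ε ≤ c α (1 * π / 2)) (h3 : -(4 * ε / (9 * π)) ≤ c α (3 * π / 2))
    (h7 : 48 * ε ≤ c α (7 * π / 2)) (n : ℤ) : 0 ≤ w α ε n := by
  have hpi := pi_pos
  have hnat : ∀ n : ℕ, Odd n → 0 ≤ w α ε n := by
    intro n hn
    rw [w_odd (by linarith) ε n (by exact_mod_cast hn)]
    push_cast
    have hS := abs_le.mp (S_odd n hn)
    rcases (show n = 1 ∨ n = 3 ∨ 5 ≤ n by obtain ⟨m, hm⟩ := hn; omega) with h | h | h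
    · subst h
      push_cast at hS ⊢
      have := hS.2
      norm_num at this
      have h2 := mul_le_mul_of_nonneg_left this (show 0 ≤ ε / 2 by positivity)
      have e : (1 : ℝ) * π / 2 = π / 2 := by ring
      rw [e] at h1 ⊢
      linarith
    · subst h
      push_cast
      rw [S_three]
      have : ε / 2 * -(8 / (9 * π)) = -(4 * ε / (9 * π)) := by
        field_simp
        ring
      rw [this]
      linarith
    · have h2 := c_ge hα hα2 (by linarith) n h hn
      have hn0 : (0 : ℝ) < n := by exact_mod_cast (by omega : 0 < n)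
      have h4 : 48 * ε / n ^ 3 ≤ c α (7 * π / 2) / n ^ 3 := by gcongr
      have h5 := mul_le_mul_of_nonneg_left hS.2 (show 0 ≤ ε / 2 by positivity)
      have h6 : ε / 2 * (96 / (n : ℝ) ^ 3) = 48 * ε / n ^ 3 := by ring
      linarith
  rcases Int.even_or_odd n with he | ho
  · rw [w_even (by linarith) ε n he]
    exact mul_nonneg (by positivity) (S_even n he).1
  · obtain ⟨m, rfl | rfl⟩ := n.eq_nat_or_neg
    · exact hnat m (by exact_mod_cast ho)
    · rw [w_neg]
      rw [odd_neg] at ho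
      exact hnat m (by exact_mod_cast ho)

/-- The set of admissible exponents is bounded above by `2`. -/
theorem le_two {α : ℝ} (hα : 0 < α) (h : PosDefOn α) : α ≤ 2 := by
  obtain ⟨μ, hμ, h⟩ := h
  have hre : ∀ ξ : ℝ, |ξ| ≤ 1 → ∫ x : ℝ, cos (ξ * x) ∂μ = 1 - |ξ| ^ α := by
    intro ξ hξ
    have h1 := h ξ hξ
    have h2 : ∫ x : ℝ, cos (ξ * x) ∂μ = (∫ x : ℝ, Complex.exp (Complex.I * ξ * x) ∂μ).re := by
      have hint : Integrable (fun y : ℝ => Complex.exp (Complex.I * ξ * y)) μ := by
        refine Integrable.of_bound (C := 1) (by fun_prop) (Filter.Eventually.of_forall fun y => ?_)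
        have : Complex.I * ξ * y = ((ξ * y : ℝ) : ℂ) * Complex.I := by
          push_cast
          ring
        rw [this, Complex.norm_exp_ofReal_mul_I]
      have h3 := integral_re hint
      have h4 : ∀ x : ℝ, RCLike.re (Complex.exp (Complex.I * ξ * x)) = cos (ξ * x) := by
        intro x
        have : Complex.I * ξ * x = ((ξ * x : ℝ) : ℂ) * Complex.I := by
          push_cast
          ring
        rw [this]
        exact Complex.exp_ofReal_mul_I_re _
      simp_rw [h4] at h3
      exact h3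
    rw [h2, h1, Complex.ofReal_re]
  have hcosint : ∀ ξ : ℝ, Integrable (fun x : ℝ => cos (ξ * x)) μ := fun ξ =>
    Integrable.of_bound (C := 1) (by fun_prop)
      (Filter.Eventually.of_forall fun x => by rw [Real.norm_eq_abs]; exact abs_cos_le_one _)
  have a0 := hre 0 (by simp)
  have a1 := hre 1 (by simp)
  have a2 := hre (1 / 2) (by rw [abs_of_pos (by norm_num)]; norm_num)
  simp only [zero_mul, cos_zero, abs_zero, zero_rpow hα.ne', sub_zero] at a0
  simp only [one_mul, abs_one, one_rpow, sub_self] at a1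
  rw [abs_of_pos (show (0 : ℝ) < 1 / 2 by norm_num)] at a2
  have hone : Integrable (fun _ : ℝ => (1 : ℝ)) μ := integrable_const _
  have key : ∫ x : ℝ, (1 - cos x) ∂μ ≤ ∫ x : ℝ, 4 * (1 - cos (1 / 2 * x)) ∂μ := by
    refine integral_mono (hone.sub (by simpa using hcosint 1)) ((hone.sub (hcosint _)).const_mul _) ?_
    intro x
    have e : cos x = 2 * cos (1 / 2 * x) ^ 2 - 1 := by
      rw [← cos_two_mul]
      congr 1
      ring
    simp only
    rw [e]
    nlinarith [cos_le_one (1 / 2 * x)]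
  have i1 : Integrable (fun x : ℝ => cos x) μ := by simpa using hcosint 1
  rw [integral_sub hone i1, integral_const_mul, integral_sub hone (hcosint _), a0, a1, a2] at key
  by_contra hlt
  push Not at hlt
  have : (1 / 2 : ℝ) ^ α < (1 / 2) ^ (2 : ℝ) :=
    rpow_lt_rpow_of_exponent_gt (by norm_num) (by norm_num) hlt
  rw [rpow_two] at this
  linarith

theorem cos_three : cos (3 * π / 2) = 0 := by
  rw [cos_eq_zero_iff]
  exact ⟨1, by push_cast; ring⟩

theorem rho_eq (α : ℝ) : rho α = J α (3 * π / 2) := rfl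

/-- Admissible exponents beyond Romanov's number. -/
theorem beyond (a : ℝ) (ha : 1 < a) (ha2 : a < 2) (h : rho a = 0) :
    ∃ α, a < α ∧ α < 2 ∧ PosDefOn α := by
  have hpi := pi_pos
  have hpi3 := pi_gt_three
  have e3 : c a (3 * π / 2) = 0 := by
    have h1 := c_eq ha (show 0 < 3 * π / 2 by positivity) cos_three
    rw [← rho_eq, h, mul_zero] at h1
    exact (mul_eq_zero.mp h1).resolve_right (rpow_pos_of_pos (by positivity) _).ne'
  have e7 : 0 < c a (7 * π / 2) := by
    have hcos7 : cos (7 * π / 2) = 0 := by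
      rw [cos_eq_zero_iff]
      exact ⟨3, by push_cast; ring⟩
    have h1 := c_eq ha (show 0 < 7 * π / 2 by positivity) hcos7
    have h2 := J7_pos ha ha2 (by rw [← rho_eq, h])
    have h3 : 0 < a * (a - 1) * J a (7 * π / 2) := mul_pos (by nlinarith) h2
    rw [← h1] at h3
    exact (pos_iff_pos_of_mul_pos h3).mpr (rpow_pos_of_pos (by positivity) _)
  have e1 := c1_pos ha
  set m := min (c a (7 * π / 2)) (c a (1 * π / 2)) with hm
  have hm0 : 0 < m := lt_min e7 e1
  set ε := m / 96 with hε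
  have hε0 : 0 < ε := by positivity
  set δ := min (min (m / 2) (4 * ε / (9 * π))) ((2 - a) / 2) with hδ
  have hδ0 : 0 < δ := lt_min (lt_min (by positivity) (by positivity)) (by linarith)
  have d1 : δ ≤ m / 2 := (min_le_left _ _).trans (min_le_left _ _)
  have d2 : δ ≤ 4 * ε / (9 * π) := (min_le_left _ _).trans (min_le_right _ _)
  have d3 : δ ≤ (2 - a) / 2 := min_le_right _ _
  have m7 : m ≤ c a (7 * π / 2) := min_le_left _ _
  have m1 : m ≤ c a (1 * π / 2) := min_le_right _ _
  refine ⟨a + δ, by linarith, by linarith, ?_⟩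
  have s : ∀ ω, |c (a + δ) ω - c a ω| ≤ δ := by
    intro ω
    have := c_sub (ω := ω) (show 0 < a by linarith) (show a ≤ a + δ by linarith)
    linarith
  have s1 := abs_le.mp (s (1 * π / 2))
  have s3 := abs_le.mp (s (3 * π / 2))
  have s7 := abs_le.mp (s (7 * π / 2))
  refine posDefOn_of_nonneg (by linarith) (by linarith) ε hε0.le
    (w_nonneg (by linarith) (by linarith) ε hε0.le ?_ ?_ ?_)
  · linarith [s1.1]
  · rw [e3] at s3
    linarith [s3.1]
  · linarith [s7.1]

/-- Existence of Romanov's number. -/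
theorem exists_root : ∃ a, 1 < a ∧ a < 2 ∧ rho a = 0 := by
  have hpi := pi_pos
  have hω : 0 < 3 * π / 2 := by positivity
  have esin : sin (3 * π / 2) = -1 := by
    have : 3 * π / 2 = π / 2 + π := by ring
    rw [this, sin_add_pi, sin_pi_div_two]
  have hcont : ContinuousOn (fun a => c a (3 * π / 2)) (Icc 1 2) := by
    rw [Metric.continuousOn_iff]
    intro b hb ε hε
    refine ⟨ε, hε, fun a ha hab => ?_⟩
    rw [Real.dist_eq] at hab ⊢
    refine lt_of_le_of_lt ?_ hab
    rcases le_total a b with h | h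
    · have := c_sub (ω := 3 * π / 2) (show 0 < a by linarith [ha.1]) h
      rw [abs_sub_comm, abs_sub_comm a b, abs_of_nonneg (show 0 ≤ b - a by linarith)]
      exact this
    · have := c_sub (ω := 3 * π / 2) (show 0 < b by linarith [hb.1]) h
      rw [abs_of_nonneg (show 0 ≤ a - b by linarith)]
      exact this
  have h1 : 0 < c 1 (3 * π / 2) := by
    have h := c_parts (α := 1) zero_lt_one hω
    have hd : ∫ t in (0 : ℝ)..(3 * π / 2), t ^ (1 : ℝ) * cos t = -(3 * π / 2) - 1 := by
      have hder : ∀ t ∈ uIcc 0 (3 * π / 2),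
          HasDerivAt (fun t : ℝ => t * sin t + cos t) (t ^ (1 : ℝ) * cos t) t := by
        intro t _
        have h1 : HasDerivAt (fun t : ℝ => t * sin t + cos t) (1 * sin t + t * cos t + -sin t) t :=
          ((hasDerivAt_id t).mul (hasDerivAt_sin t)).add (hasDerivAt_cos t)
        have e : t ^ (1 : ℝ) * cos t = 1 * sin t + t * cos t + -sin t := by
          rw [rpow_one]
          ring
        rw [e]
        exact h1
      rw [intervalIntegral.integral_eq_sub_of_hasDerivAt hder
        (((continuous_rpow_const zero_le_one).mul continuous_cos).intervalIntegrable _ _), esin,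
        cos_three, sin_zero, cos_zero]
      ring
    rw [hd, esin, rpow_one] at h
    have h2 : 0 < c 1 (3 * π / 2) * (3 * π / 2) ^ (1 + 1 : ℝ) := by
      rw [h]
      linarith
    exact (pos_iff_pos_of_mul_pos h2).mpr (rpow_pos_of_pos hω _)
  have h2 : c 2 (3 * π / 2) < 0 := by
    have h := c_eq (α := 2) one_lt_two hω cos_three
    have hJ : J 2 (3 * π / 2) = -1 := by
      unfold J
      simp only [sub_self, rpow_zero, div_one]
      rw [integral_cos, esin, sin_zero, sub_zero]
    rw [hJ] at h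
    have h3 : 0 < (3 * π / 2) ^ (1 + 2 : ℝ) := rpow_pos_of_pos hω _
    by_contra hneg
    push Not at hneg
    have := mul_nonneg hneg h3.le
    rw [h] at this
    linarith
  obtain ⟨a, ha, ha0⟩ := intermediate_value_Icc' one_le_two hcont ⟨h2.le, h1.le⟩
  have ha0' : c a (3 * π / 2) = 0 := ha0
  have ha1 : 1 < a := by
    rcases eq_or_lt_of_le ha.1 with h | h
    · rw [← h] at ha0'
      linarith
    · exact h
  have ha2 : a < 2 := by
    rcases eq_or_lt_of_le ha.2 with h | h
    · rw [h] at ha0'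
      linarith
    · exact h
  refine ⟨a, ha1, ha2, ?_⟩
  have h3 := c_eq ha1 hω cos_three
  rw [ha0', zero_mul] at h3
  rw [rho_eq]
  rcases mul_eq_zero.mp h3.symm with h | h
  · have : 0 < a * (a - 1) := by nlinarith
    linarith
  · exact h

/-- Romanov's equation has a solution in `(1,2)`, and `β₀` is larger than every such solution. -/
theorem result : (∃ a : ℝ, 1 < a ∧ a < 2 ∧ rho a = 0) ∧
    ∀ a : ℝ, 1 < a → a < 2 → rho a = 0 → a < beta0 := by
  refine ⟨exists_root, fun a ha ha2 h => ?_⟩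
  obtain ⟨α, h1, h2, h3⟩ := beyond a ha ha2 h
  refine h1.trans_le (le_csSup ⟨2, ?_⟩ ⟨by linarith, h3⟩)
  rintro b ⟨hb, hb2⟩
  exact le_two hb hb2

end Pool.Agent.Results.MP_e4dd62_an.BetaGreater
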